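import Pool.Agent.Helper7.EC_E.GoalsR
import Pool.Agent.Helper28.EC.D_B3

/-!
# MP_ecc237_nt, PART E, packet RA: the reduced form of family A
-/

set_option autoImplicit false

open MeasureTheory Filter Topology Set

namespace EC237.ZE.PkRA

open Pool.Agent.Helper28.EC.D_B3

theorem coeff_gser0 (a : ℂ) : gser a 0 = PowerSeries.C a := by
  ext n
  rw [PowerSeries.coeff_C]
  unfold gser
  rw [PowerSeries.coeff_mk]
  by_cases h : n = 0
  · subst h; simp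
  · simp [h]

theorem AB0 (y : ℝ) (s : ℤ × ℤ) : As (y:ℂ) (s, 0) * Bs (y:ℂ) (s, 0) =
    PowerSeries.C (1 / (Nn y s : ℂ)) := by
  unfold As Bs
  simp only [Int.cast_zero]
  rw [coeff_gser0, coeff_gser0, ← map_mul, ← mul_inv, one_div]
  congr 2
  unfold KA KB Nn
  push_cast
  linear_combination -(s.2:ℂ)^2 * (y:ℂ)^2 * Complex.I_sq

/-- the factor `F` -/
noncomputable def Fi (i : ℕ) (w : ℂ) (s k : ℤ × ℤ) : ℂ :=
  if InCl 1 k ∧ InCl 1 (s - k) then PowerSeries.coeff i (XX w (k, 1) (s - k, -1)) else 0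

/-- the factor `G` -/
noncomputable def Gj (j : ℕ) (w : ℂ) (s k : ℤ × ℤ) : ℂ :=
  if InCl 1 k ∧ InCl 3 (-s - k) then PowerSeries.coeff j (XX w (k, 1) (-s - k, -1)) else 0

/-- the factor `c` -/
noncomputable def cc (y : ℝ) (s : ℤ × ℤ) : ℂ := if InCl 2 s then 1 / (Nn y s : ℂ) else 0

/-- the term -/
noncomputable def TT (i j : ℕ) (y : ℝ) (p : Tri) : ℂ :=
  cc y (p.1 + p.2.1) * Fi i (y:ℂ) (p.1 + p.2.1) p.1 * Gj j (y:ℂ) (p.1 + p.2.1) p.2.2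

theorem cls {p : Tri} (h : ClT 1 1 1 p) : InCl 2 (p.1 + p.2.1) ∧
    (InCl 1 p.1 ∧ InCl 1 (p.1 + p.2.1 - p.1)) ∧
    (InCl 1 p.2.2 ∧ InCl 3 (-(p.1 + p.2.1) - p.2.2)) := by
  obtain ⟨h1, h2, h3⟩ := h
  unfold InCl at *
  simp only [Prod.fst_add, Prod.snd_add, Prod.fst_sub, Prod.snd_sub, Prod.fst_neg, Prod.snd_neg]
  refine ⟨by omega, ⟨h1, by omega⟩, ⟨h3, by omega⟩⟩

theorem famA_eq (y : ℝ) (p : Tri) : famA (cQ (y:ℂ)) p =
    (-(2 / 3 * (y:ℂ) ^ 3)) * (TT 0 2 y p + TT 1 1 y p + TT 2 0 y p) := by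
  unfold famA
  by_cases h : ClT 1 1 1 p
  · rw [if_pos h]
    obtain ⟨c1, c2, c3⟩ := cls h
    unfold TT cc Fi Gj
    rw [if_pos c1]
    simp only [if_pos c2, if_pos c3]
    have e1 : p.1 + p.2.1 - p.1 = p.2.1 := by abel
    have e2 : -(p.1 + p.2.1) - p.2.2 = k4 p := by unfold k4; abel
    rw [e1, e2]
    unfold cQ Qs
    have e3 : ((p.1, 1) + (p.2.1, -1) : SV) = (p.1 + p.2.1, 0) := rfl
    rw [e3, AB0, PowerSeries.coeff_smul, smul_eq_mul, mul_comm (XX _ _ _ * XX _ _ _),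
      PowerSeries.coeff_C_mul, coeff_mul2]
    ring
  · rw [if_neg h]
    have hz : ∀ i j : ℕ, TT i j y p = 0 := by
      intro i j
      unfold TT Fi Gj
      by_cases c2 : InCl 1 p.1 ∧ InCl 1 (p.1 + p.2.1 - p.1)
      · by_cases c3 : InCl 1 p.2.2 ∧ InCl 3 (-(p.1 + p.2.1) - p.2.2)
        · exfalso
          apply h
          have e1 : p.1 + p.2.1 - p.1 = p.2.1 := by abel
          rw [e1] at c2
          exact ⟨c2.1, c2.2, c3.1⟩
        · rw [if_neg c3, mul_zero]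
      · rw [if_neg c2, mul_zero, zero_mul]
    rw [hz, hz, hz]
    simp

theorem ne_zero_of_cl {c : ℤ} (hc : c % 6 ≠ 0) {k : ℤ × ℤ} (h : InCl c k) : k ≠ 0 := by
  rintro rfl
  unfold InCl at h
  simp only [Prod.fst_zero, Prod.snd_zero] at h
  omega

theorem TT_summable (hB2 : EC237.B2) (hB4 : EC237.B4) (y : ℝ) (hy : 0 < y) (i j : ℕ)
    (hij : i + j = 2) : Summable (TT i j y) := by
  obtain ⟨C, hC, h2⟩ := hB2 y hy
  have hw : (y:ℂ) ∈ Bd y := Metric.mem_ball_self (by positivity)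
  obtain ⟨hb1, hb2⟩ := h2 _ hw
  have hb1' : ∀ i : ℕ, i ≤ 2 → ∀ v1 v2 : SV, |v1.2| ≤ 1 → |v2.2| ≤ 1 → v1.1 ≠ 0 → v2.1 ≠ 0 →
      v1.1 + v2.1 ≠ 0 → ‖PowerSeries.coeff i (XX (y:ℂ) v1 v2)‖ ≤
        C * rk (v1.1 + v2.1) ^ (ex3 i) * (pw v1.1 + pw v2.1) := by
    intro i hi v1 v2 g1 g2 g3 g4 g5
    obtain ⟨x0, x1, x2⟩ := hb1 v1 v2 g1 g2 g3 g4 g5
    interval_cases i
    · simpa [ex3] using x0
    · simpa [ex3] using x1
    · simpa [ex3] using x2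
  have hex : ex3 i + ex3 j + -2 ≤ -(5 / 2) := by
    have hi : i ≤ 2 := by omega
    interval_cases i
    · have : j = 2 := by omega
      subst this; norm_num [ex3]
    · have : j = 1 := by omega
      subst this; norm_num [ex3]
    · have : j = 0 := by omega
      subst this; norm_num [ex3]
  refine Summable.of_norm_bounded (hB4.2.1.mul_left (C ^ 3)) ?_
  intro p
  have hnn : 0 ≤ C ^ 3 * (pw (p.1 + p.2.1) * (pw p.1 + pw p.2.1) * (pw p.2.2 + pw (k4 p))) := by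
    have := pw_nonneg (p.1 + p.2.1)
    have := pw_nonneg p.1
    have := pw_nonneg p.2.1
    have := pw_nonneg p.2.2
    have := pw_nonneg (k4 p)
    positivity
  unfold TT cc Fi Gj
  by_cases c1 : InCl 2 (p.1 + p.2.1)
  swap
  · rw [if_neg c1]; simpa using hnn
  by_cases c2 : InCl 1 p.1 ∧ InCl 1 (p.1 + p.2.1 - p.1)
  swap
  · rw [if_neg c2]; simpa using hnn
  by_cases c3 : InCl 1 p.2.2 ∧ InCl 3 (-(p.1 + p.2.1) - p.2.2)
  swap
  · rw [if_neg c3]; simpa using hnn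
  rw [if_pos c1, if_pos c2, if_pos c3]
  have e1 : p.1 + p.2.1 - p.1 = p.2.1 := by abel
  have e2 : -(p.1 + p.2.1) - p.2.2 = k4 p := by unfold k4; abel
  rw [e1] at c2
  rw [e2] at c3
  rw [e1, e2]
  have n1 := ne_zero_of_cl (by norm_num) c2.1
  have n2 := ne_zero_of_cl (by norm_num) c2.2
  have n3 := ne_zero_of_cl (by norm_num) c3.1
  have n4 := ne_zero_of_cl (by norm_num) c3.2
  have ns := ne_zero_of_cl (by norm_num) c1
  have e5 : p.2.2 + k4 p = -(p.1 + p.2.1) := by unfold k4; abel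
  have ns' : p.2.2 + k4 p ≠ 0 := by rw [e5]; exact neg_ne_zero.2 ns
  have x1 := hb1' i (by omega) (p.1, 1) (p.2.1, -1) (by norm_num) (by norm_num) n1 n2 ns
  have x2 := hb1' j (by omega) (p.2.2, 1) (k4 p, -1) (by norm_num) (by norm_num) n3 n4 ns'
  simp only [e5, rk_neg] at x2
  have x3 := hb2 (p.1 + p.2.1, 0) (by norm_num) ns 0 (by norm_num)
  rw [AB0, PowerSeries.coeff_C, if_pos rfl] at x3
  simp only [Nat.cast_zero, add_zero] at x3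
  have hs1 := rk_ge ns
  have t := tri hC.le (add_nonneg (pw_nonneg p.1) (pw_nonneg p.2.1))
    (add_nonneg (pw_nonneg p.2.2) (pw_nonneg (k4 p))) hs1 x1 x2 x3 hex
  calc ‖1 / (Nn y (p.1 + p.2.1) : ℂ) * PowerSeries.coeff i (XX (y:ℂ) (p.1, 1) (p.2.1, -1)) *
        PowerSeries.coeff j (XX (y:ℂ) (p.2.2, 1) (k4 p, -1))‖
      = ‖PowerSeries.coeff i (XX (y:ℂ) (p.1, 1) (p.2.1, -1)) *
        PowerSeries.coeff j (XX (y:ℂ) (p.2.2, 1) (k4 p, -1)) * (1 / (Nn y (p.1 + p.2.1) : ℂ))‖ := by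
        congr 1; ring
    _ ≤ _ := t
    _ = _ := rfl

theorem thm (_h1 : EC237.A1) (_h2 : EC237.B1) (h3 : EC237.B2) (h4 : EC237.B4)
    (h5 : EC237.ZE.G_R0) (_h6 : EC237.ZE.G_RS) (h7 : EC237.ZE.G_RY) : EC237.ZE.G_RA := by
  intro y hy
  have s02 := TT_summable h3 h4 y hy 0 2 rfl
  have s11 := TT_summable h3 h4 y hy 1 1 rfl
  have s20 := TT_summable h3 h4 y hy 2 0 rfl
  obtain ⟨a02, b02⟩ := h5 (cc y) (Fi 0 (y:ℂ)) (Gj 2 (y:ℂ)) s02
  obtain ⟨a11, b11⟩ := h5 (cc y) (Fi 1 (y:ℂ)) (Gj 1 (y:ℂ)) s11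
  obtain ⟨a20, b20⟩ := h5 (cc y) (Fi 2 (y:ℂ)) (Gj 0 (y:ℂ)) s20
  have hF : ∀ (i : ℕ) (s : ℤ × ℤ), ∑' k, Fi i (y:ℂ) s k = XS 1 1 1 (-1) i (y:ℂ) s :=
    fun i s => rfl
  have hG : ∀ (j : ℕ) (s : ℤ × ℤ), ∑' k, Gj j (y:ℂ) s k = XS 1 3 1 (-1) j (y:ℂ) (-s) :=
    fun i s => rfl
  have z0 : ∀ j : ℕ, (fun s : ℤ × ℤ => cc y s * (∑' k, Fi 0 (y:ℂ) s k) * (∑' k, Gj j (y:ℂ) s k)) =
      fun _ => 0 := by
    intro j
    funext s
    by_cases c1 : InCl 2 s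
    · rw [hF, (h7 y hy s (ne_zero_of_cl (by norm_num) c1)).1]
      ring
    · unfold cc
      rw [if_neg c1]; ring
  have z2 : ∀ j : ℕ, (fun s : ℤ × ℤ => cc y s * (∑' k, Fi 2 (y:ℂ) s k) * (∑' k, Gj j (y:ℂ) s k)) =
      fun _ => 0 := by
    intro j
    funext s
    by_cases c1 : InCl 2 s
    · rw [hF, (h7 y hy s (ne_zero_of_cl (by norm_num) c1)).2.1]
      ring
    · unfold cc
      rw [if_neg c1]; ring
  have z1 : (fun s : ℤ × ℤ => cc y s * (∑' k, Fi 1 (y:ℂ) s k) * (∑' k, Gj 1 (y:ℂ) s k)) =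
      fun s => 2 * (if InCl 2 s then Yv (y:ℂ) s * Wv (y:ℂ) s / (Nn y s : ℂ) else 0) := by
    funext s
    by_cases c1 : InCl 2 s
    · rw [hF, hG, (h7 y hy s (ne_zero_of_cl (by norm_num) c1)).2.2.1]
      unfold cc Wv
      rw [if_pos c1, if_pos c1]
      ring
    · unfold cc
      rw [if_neg c1, if_neg c1]; ring
  have hfam : famA (cQ (y:ℂ)) =
      fun p => (-(2 / 3 * (y:ℂ) ^ 3)) * (TT 0 2 y p + TT 1 1 y p + TT 2 0 y p) :=
    funext (famA_eq y)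
  rw [z1] at a11 b11
  rw [z0] at b02
  rw [z2] at b20
  have e02 : ∑' p, TT 0 2 y p = 0 := by
    have : ∑' p, TT 0 2 y p = ∑' _ : ℤ × ℤ, (0:ℂ) := b02
    rw [this, tsum_zero]
  have e20 : ∑' p, TT 2 0 y p = 0 := by
    have : ∑' p, TT 2 0 y p = ∑' _ : ℤ × ℤ, (0:ℂ) := b20
    rw [this, tsum_zero]
  have e11 : ∑' p, TT 1 1 y p = ∑' s : ℤ × ℤ,
      2 * (if InCl 2 s then Yv (y:ℂ) s * Wv (y:ℂ) s / (Nn y s : ℂ) else 0) := b11
  refine ⟨?_, ?_, ?_⟩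
  · rw [hfam]
    exact ((s02.add s11).add s20).mul_left _
  · have := a11.mul_left (1 / 2 : ℂ)
    refine this.congr fun s => ?_
    ring
  · rw [hfam, tsum_mul_left, (s02.add s11).tsum_add s20, s02.tsum_add s11, e02, e20, e11,
      tsum_mul_left]
    ring

end EC237.ZE.PkRA
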